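import Pool.Agent.H73.PHS.Stmts

/-!
# Board `phs`, row JAC (helper80): the real determinant of a complex linear map
-/

set_option autoImplicit false

namespace Pool.PHS

theorem JAC_thm : JACStmt := by
  intro n L
  have h := LinearMap.det_restrictScalars (R := ℝ) (S := ℂ) (f := (L : Cn n →ₗ[ℂ] Cn n))
  rw [Algebra.norm_complex_apply] at h
  exact h

end Pool.PHS
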